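import Pool.Agent.R460.SB.Core
import Pool.Agent.R460.GR.D5
import Pool.Agent.T9h57.GL.B3

set_option autoImplicit false

/-! The mean square of the correlation with a quadratic polynomial in a residue class of a regular modulus.
Adapted from `R460/SB/Core`. -/

namespace Pool.Agent.T9h57.SB

open Finset
open Pool.Agent.Y883.GJ
open Pool.Agent.R460.GS
open Pool.Agent.R460.SB
open Pool.Agent.R460.GR (RegAt)
open Pool.Agent.R460.SQ (mj mem_mj card_mj maj_count fin_arith cls cl_mean)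
open Pool.Agent.H807R2.Dav (ee norm_ee)
open Pool.Agent.Y614.GJ.Core (P P_nonneg P_le q_le_phi card_above gcd_above dirich ev_log)

/-- the mean square over the classes of a regular modulus -/
lemma P_reg (h5 : OrthStm) {q N : ℕ} [NeZero q] {G : ℕ → ℂ} {A C₃ U₁ : ℕ} {L η : ℝ}
    (hL : L = Real.log N) (hL200 : 200 ≤ L) (hN : 1 ≤ N) (hqN : (q : ℝ) ≤ N)
    (B : Finset (DirichletCharacter ℂ q)) (hBc : (B.card : ℝ) ≤ L ^ C₃)
    (hgood : ∀ S : Finset (DirichletCharacter ℂ q), Disjoint S B →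
      ∑ χ ∈ S, ‖cs q N G η χ‖ ^ 2 ≤ (N : ℝ) ^ 2 / L ^ (A + 4))
    (hnon : ∑ l ∈ univ.filter (fun l : ZMod q => ¬ IsUnit l), ‖cl q N G η l‖ ^ 2 ≤ (N : ℝ) ^ 2 / (q * L ^ A) / 2)
    (hall : ∀ χ : DirichletCharacter ℂ q, ‖cs q N G η χ‖ ≤ N / L ^ U₁) (hU : C₃ + A + 4 ≤ 2 * U₁) :
    P q N G η ≤ (N : ℝ) ^ 2 / (q * L ^ A) := by
  classical
  have hL0 : 0 < L := by linarith
  have hL1 : 1 ≤ L := by linarith
  have hNp : (0 : ℝ) < N := by exact_mod_cast hN
  have hq0 : 0 < q := Nat.pos_of_ne_zero (NeZero.ne q)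
  have hqr : (0 : ℝ) < q := by exact_mod_cast hq0
  have hφ0 : (0 : ℝ) < q.totient := by exact_mod_cast Nat.totient_pos.2 hq0
  have hsum : ∑ χ : DirichletCharacter ℂ q, ‖cs q N G η χ‖ ^ 2 ≤ 3 * ((N : ℝ) ^ 2 / L ^ (A + 4)) := by
    rw [← sum_filter_add_sum_filter_not univ (fun χ => χ ∈ B)]
    have t1 : ∑ χ ∈ univ.filter (fun χ : DirichletCharacter ℂ q => ¬ χ ∈ B), ‖cs q N G η χ‖ ^ 2 ≤
        (N : ℝ) ^ 2 / L ^ (A + 4) := by
      refine hgood _ ?_
      rw [disjoint_left]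
      intro χ k1 k2
      exact (mem_filter.1 k1).2 k2
    have t2 : ∀ χ ∈ univ.filter (fun χ : DirichletCharacter ℂ q => χ ∈ B),
        ‖cs q N G η χ‖ ^ 2 ≤ ((N : ℝ) / L ^ U₁) ^ 2 := fun χ _ => pow_le_pow_left₀ (norm_nonneg _) (hall χ) 2
    have t3 : ∑ χ ∈ univ.filter (fun χ : DirichletCharacter ℂ q => χ ∈ B), ‖cs q N G η χ‖ ^ 2 ≤
        (N : ℝ) ^ 2 / L ^ (A + 4) := by
      refine (sum_le_sum t2).trans ?_
      rw [sum_const, nsmul_eq_mul]
      have t4 : ((univ.filter (fun χ : DirichletCharacter ℂ q => χ ∈ B)).card : ℝ) ≤ L ^ C₃ := by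
        refine le_trans ?_ hBc
        have : univ.filter (fun χ : DirichletCharacter ℂ q => χ ∈ B) = B := by
          ext χ; simp
        rw [this]
      calc ((univ.filter (fun χ : DirichletCharacter ℂ q => χ ∈ B)).card : ℝ) * ((N : ℝ) / L ^ U₁) ^ 2 ≤
            L ^ C₃ * ((N : ℝ) / L ^ U₁) ^ 2 := mul_le_mul_of_nonneg_right t4 (sq_nonneg _)
        _ = (N : ℝ) ^ 2 * (L ^ C₃ / L ^ (2 * U₁)) := by
            rw [div_pow, ← pow_mul, mul_comm U₁ 2]
            ring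
        _ ≤ (N : ℝ) ^ 2 * (1 / L ^ (A + 4)) := by
            have e1 : L ^ C₃ / L ^ (2 * U₁) ≤ 1 / L ^ (A + 4) := by
              rw [div_le_div_iff₀ (by positivity) (by positivity), one_mul, ← pow_add]
              exact pow_le_pow_right₀ hL1 (by omega)
            gcongr
        _ = _ := by ring
    have t5 : 0 ≤ (N : ℝ) ^ 2 / L ^ (A + 4) := by positivity
    linarith
  have e4 := P_le h5 hsum hnon
  have hφ : ((q.totient : ℝ))⁻¹ ≤ 3 * L / q := by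
    have h1 := q_le_phi hq0
    have h2 : Real.log q ≤ L := by
      rw [hL]
      exact Real.log_le_log hqr hqN
    rw [inv_eq_one_div, div_le_div_iff₀ hφ0 hqr, one_mul]
    refine h1.trans ?_
    rw [mul_comm (3 * L)]
    apply mul_le_mul_of_nonneg_left _ hφ0.le
    linarith
  have e6 : ((q.totient : ℝ))⁻¹ * (3 * ((N : ℝ) ^ 2 / L ^ (A + 4))) ≤ (N : ℝ) ^ 2 / (q * L ^ A) / 2 := by
    calc ((q.totient : ℝ))⁻¹ * (3 * ((N : ℝ) ^ 2 / L ^ (A + 4))) ≤ 3 * L / q * (3 * ((N : ℝ) ^ 2 / L ^ (A + 4))) := by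
          gcongr
      _ = (N : ℝ) ^ 2 / (q * L ^ A) * (9 / L ^ 3) := by
          rw [pow_add L A 4]
          field_simp
          try ring
      _ ≤ (N : ℝ) ^ 2 / (q * L ^ A) * (1 / 2) := by
          have : 9 / L ^ 3 ≤ 1 / 2 := by
            rw [div_le_div_iff₀ (by positivity) (by norm_num)]
            have : 200 ^ 3 ≤ L ^ 3 := pow_le_pow_left₀ (by norm_num) hL200 3
            linarith
          gcongr
      _ = _ := by ring
  refine e4.trans ?_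
  linarith

/-- the pointwise estimate on the major arcs -/
lemma pw_reg {q N : ℕ} [NeZero q] {α γ : ℤ} (hα : α ≠ 0) (G : ℕ → ℂ) {A T : ℕ} {L η : ℝ}
    {a : ZMod q} (hL200 : 200 ≤ L) (hLα : 8 * |(α : ℝ)| ≤ L) (hN : 1 ≤ N)
    (hqN : (q : ℝ) ≤ Real.sqrt N) (hτ : (q.divisors.card : ℝ) ≤ L ^ T)
    (hP : P q N G η ≤ (N : ℝ) ^ 2 / (q * L ^ (A + T + 1))) {y : ℕ} (hy : y ^ 2 ≤ N) :
    ‖TT α γ G y N q η a‖ ^ 2 ≤ (N : ℝ) ^ 3 / (q ^ 2 * L ^ A) := by
  have hL0 : 0 < L := by linarith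
  have hL1 : 1 ≤ L := by linarith
  have hNp : (0 : ℝ) < N := by exact_mod_cast hN
  have hq0 : 0 < q := Nat.pos_of_ne_zero (NeZero.ne q)
  have hqr : (0 : ℝ) < q := by exact_mod_cast hq0
  have hs2 : Real.sqrt N ^ 2 = N := Real.sq_sqrt hNp.le
  have hs0 : 0 < Real.sqrt N := Real.sqrt_pos.2 hNp
  have hyr : (y : ℝ) ≤ Real.sqrt N := by
    apply Real.le_sqrt_of_sq_le
    exact_mod_cast hy
  have t1 := part_good (y := y) (N := N) (γ := γ) hα (fun l => cl q N G η l) a η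
  have hP' : ∑ l : ZMod q, ‖cl q N G η l‖ ^ 2 ≤ (N : ℝ) ^ 2 / (q * L ^ (A + T + 1)) := hP
  refine le_trans t1 ?_
  have e1 : (y : ℝ) / q + 1 ≤ 2 * Real.sqrt N / q := by
    have h1 : (y : ℝ) / q ≤ Real.sqrt N / q := by gcongr
    have h2 : 1 ≤ Real.sqrt N / q := by rw [one_le_div hqr]; exact hqN
    have h3 : 2 * Real.sqrt N / q = Real.sqrt N / q + Real.sqrt N / q := by ring
    linarith
  calc ((y : ℝ) / q + 1) ^ 2 * ((2 * |(α : ℝ)| * (q.divisors.card * q)) * ∑ l : ZMod q, ‖cl q N G η l‖ ^ 2)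
      ≤ (2 * Real.sqrt N / q) ^ 2 * ((2 * |(α : ℝ)| * (L ^ T * q)) *
        ((N : ℝ) ^ 2 / (q * L ^ (A + T + 1)))) := by
        gcongr
    _ = (8 * |(α : ℝ)|) * (N ^ 3 / (q ^ 2 * L ^ A)) / L := by
        have h1 : L ^ (A + T + 1) = L ^ T * L ^ A * L := by ring
        rw [h1, div_pow, mul_pow, hs2]
        field_simp
        ring
    _ ≤ L * (N ^ 3 / (q ^ 2 * L ^ A)) / L := by gcongr
    _ = _ := by field_simp

/-- CORESQR: the mean square of the correlation in a residue class of a regular modulus -/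
def CoreSqRStm : Prop := ∀ α γ : ℤ, α ≠ 0 → ∀ (A T : ℕ) (ρ : ℝ), 0 < ρ → ∃ C A₂ : ℕ, ∀ C₃ : ℕ, ∃ U₁ : ℕ,
  ∀ K : ℕ, ∃ U N₀ : ℕ,
  ∀ N : ℕ, N₀ ≤ N → ∀ G : ℕ → ℂ, (∀ n ∈ Icc 1 N, ‖G n‖ ≤ Real.log N ^ 2) → MajAt N (1 / 10) A₂ C C₃ G →
  ApAt N K U G → NcAt N U G →
  ∀ (q : ℕ) [NeZero q], (q : ℝ) ≤ (N : ℝ) ^ (1 / 2 - ρ) → (q.divisors.card : ℝ) ≤ Real.log N ^ T →
  RegAt N (C + 1) K U₁ G q → ∀ a : ZMod q, ∀ y : ℕ, y ^ 2 ≤ N →
    ∑ n ∈ cls ((α.natAbs + γ.natAbs + 1) * N) q a, ‖cvs α γ G y N n‖ ^ 2 ≤ (N : ℝ) ^ 2 / (q * Real.log N ^ A)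

theorem coreSqR (h3 : OrthStm) (h7 : NonUStm) : CoreSqRStm := by
  classical
  intro α γ hα A T ρ hρ
  obtain ⟨C, hC⟩ : ∃ C, C = A + 7 := ⟨_, rfl⟩
  obtain ⟨T', hT'⟩ : ∃ T', T' = T + C + 1 := ⟨_, rfl⟩
  obtain ⟨A', hA'⟩ : ∃ A', A' = A + 3 * C + 5 := ⟨_, rfl⟩
  refine ⟨C, A' + T' + 1 + 4, fun C₃ => ?_⟩
  obtain ⟨c, hc⟩ := h7
  obtain ⟨B₂, hB₂⟩ : ∃ B₂, B₂ = C₃ + A' + 9 := ⟨_, rfl⟩
  obtain ⟨U₁, hU₁⟩ : ∃ U₁, U₁ = C₃ + (A' + T' + 1) + 4 := ⟨_, rfl⟩
  refine ⟨U₁, fun K => ?_⟩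
  obtain ⟨U, hU⟩ : ∃ U, U = K + C + 1 + U₁ + 2 * (A' + T' + 4) + 4 + 2 * c := ⟨_, rfl⟩
  obtain ⟨N₃, hN₃⟩ := Filter.eventually_atTop.1 (ev_log (C + 1 + (B₂ + C + 2)) (s := ρ) hρ
    (300 + 96 * kap α γ ^ 2 + 48 * kap α γ + 48))
  refine ⟨U, max N₃ 1, ?_⟩
  intro N hN G hG hMaj hAp hNc q _ hq hτ hReg a y hy
  have hNN₃ : N₃ ≤ N := le_trans (le_max_left _ _) hN
  have hN1 : 1 ≤ N := le_trans (le_max_right _ _) hN
  obtain ⟨hLb, hLp⟩ := hN₃ N hNN₃
  obtain ⟨L, hL⟩ : ∃ L, L = Real.log (N : ℝ) := ⟨_, rfl⟩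
  rw [← hL] at hLb hLp hG hτ ⊢
  have hα0 : (0 : ℝ) ≤ |(α : ℝ)| := abs_nonneg _
  obtain ⟨hα1, hακ, hκ1⟩ := kap_ge hα γ
  have hκ2 : 0 ≤ kap α γ ^ 2 := sq_nonneg _
  have hL300 : 300 ≤ L := by linarith
  have hLκ : 48 * (kap α γ + 1) ≤ L := by linarith
  have hLα : 48 * (|(α : ℝ)| + 1) ≤ L := by linarith
  have hLκ2 : 96 * kap α γ ^ 2 ≤ L := by linarith
  have hL0 : 0 < L := by linarith
  have hL1 : 1 ≤ L := by linarith
  have hN0 : (0 : ℝ) < N := by exact_mod_cast hN1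
  have hNr1 : (1 : ℝ) ≤ N := by exact_mod_cast hN1
  have hq0 : (0 : ℝ) < q := by exact_mod_cast NeZero.pos q
  have hq1 : (1 : ℝ) ≤ q := by exact_mod_cast NeZero.pos q
  have hnat : (α.natAbs : ℝ) = |(α : ℝ)| := by rw [Nat.cast_natAbs, Int.cast_abs]
  have hnat0 : 0 < α.natAbs := Int.natAbs_pos.2 hα
  obtain ⟨M, hM⟩ : ∃ M, M = Real.sqrt N := ⟨_, rfl⟩
  have hM0 : 0 < M := by rw [hM]; exact Real.sqrt_pos.2 hN0
  have hMM : M * M = N := by rw [hM]; exact Real.mul_self_sqrt hN0.le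
  have hM1 : 1 ≤ M := by
    rw [hM]
    exact Real.one_le_sqrt.2 hNr1
  have hMN : M ≤ N := by nlinarith
  have hbig : (q : ℝ) * L ^ (C + 1 + (B₂ + C + 2)) ≤ M := by
    calc (q : ℝ) * L ^ (C + 1 + (B₂ + C + 2)) ≤ (N : ℝ) ^ (1 / 2 - ρ) * (N : ℝ) ^ ρ := by gcongr
      _ = M := by
          rw [← Real.rpow_add hN0, hM, Real.sqrt_eq_rpow]
          congr 1
          ring
  have hsmall : ∀ e : ℕ, e ≤ C + 1 + (B₂ + C + 2) → (q : ℝ) * L ^ e ≤ M := by
    intro e he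
    refine le_trans ?_ hbig
    gcongr
  have hqC : (q : ℝ) * L ^ C ≤ M := hsmall C (by omega)
  have hLC0 : 0 < L ^ C := by positivity
  have hLC1 : 1 ≤ L ^ C := one_le_pow₀ hL1
  have hqN : (q : ℝ) ≤ N := by
    have : (q : ℝ) ≤ q * L ^ C := by nlinarith
    linarith
  obtain ⟨D, hD⟩ : ∃ D, D = 2 * ((α.natAbs + γ.natAbs + 1) * N) + 1 := ⟨_, rfl⟩
  have hDr : (D : ℝ) = 2 * ((kap α γ + 1) * N) + 1 := by
    rw [hD, ← kap_nat]
    push_cast
    ring
  have hDN : N < D := by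
    rw [hD]
    nlinarith [Nat.zero_le (α.natAbs * N), Nat.zero_le (γ.natAbs * N)]
  have hD0 : (0 : ℝ) < D := by exact_mod_cast (by omega : 0 < D)
  have hDNr : (N : ℝ) ≤ D := by exact_mod_cast hDN.le
  -- the quantities
  obtain ⟨Kk, hKk⟩ : ∃ Kk, Kk = 2 * α.natAbs * ⌊L ^ C⌋₊ := ⟨_, rfl⟩
  have hKkr : (Kk : ℝ) ≤ L ^ (C + 1) := by
    rw [hKk]
    push_cast
    rw [hnat]
    have h1 : ((⌊L ^ C⌋₊ : ℕ) : ℝ) ≤ L ^ C := Nat.floor_le hLC0.le
    calc 2 * |(α : ℝ)| * (⌊L ^ C⌋₊ : ℝ) ≤ L * L ^ C := by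
          gcongr
          linarith
      _ = _ := by ring
  obtain ⟨w, hw⟩ : ∃ w, w = L ^ C / (N : ℝ) := ⟨_, rfl⟩
  have hw0 : 0 ≤ w := by rw [hw]; positivity
  obtain ⟨Sb, hSb⟩ : ∃ Sb : ℝ → ℝ, Sb = fun β => ∑ k : ZMod q, ‖cl q N G β (a - ((α : ZMod q) * k ^ 2 + (γ : ZMod q) * k))‖ ^ 2 :=
    ⟨_, rfl⟩
  have hSb0 : ∀ β, 0 ≤ Sb β := fun β => by rw [hSb]; exact sum_nonneg fun _ _ => sq_nonneg _
  obtain ⟨X₁, hX₁⟩ : ∃ X₁, X₁ = (N : ℝ) / (q * L ^ (A + 5)) := ⟨_, rfl⟩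
  obtain ⟨X₂, hX₂⟩ : ∃ X₂, X₂ = (N : ℝ) ^ 3 / (q ^ 2 * L ^ A') := ⟨_, rfl⟩
  have hX₁0 : 0 ≤ X₁ := by rw [hX₁]; positivity
  have hX₂0 : 0 ≤ X₂ := by rw [hX₂]; positivity
  have hBd : BdAt N G := by
    intro n hn
    have h1 := hG n hn
    rw [← hL]
    have h2 : (1 : ℝ) ≤ (n.divisors.card : ℝ) := by
      have : 0 < n.divisors.card := card_pos.2 ⟨1, Nat.one_mem_divisors.2 (by
        rw [mem_Icc] at hn
        omega)⟩
      exact_mod_cast this
    calc ‖G n‖ ≤ L ^ 2 * 1 := by rw [mul_one]; exact h1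
      _ ≤ _ := by gcongr
  -- the estimate for one frequency
  have hpt : ∀ t ∈ range D, ‖TT α γ G y N q ((t : ℝ) / D) a‖ ^ 2 ≤
      X₁ * Sb ((t : ℝ) / D) + (if t ∈ mj D q Kk w then X₂ else 0) := by
    intro t ht
    obtain ⟨β, hβ⟩ : ∃ β, β = (t : ℝ) / D := ⟨_, rfl⟩
    rw [← hβ]
    obtain ⟨n, hn⟩ : ∃ n, n = ⌊(N : ℝ) / (q * L ^ C)⌋₊ := ⟨_, rfl⟩
    have hqLC : (q : ℝ) * L ^ C ≤ N := hqC.trans hMN
    have hn0 : 0 < n := by
      rw [hn, Nat.floor_pos, le_div_iff₀ (by positivity), one_mul]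
      exact hqLC
    have hn1 : (n : ℝ) ≤ (N : ℝ) / (q * L ^ C) := by rw [hn]; exact Nat.floor_le (by positivity)
    have hn2 : (N : ℝ) / (q * L ^ C) < n + 1 := by rw [hn]; exact Nat.lt_floor_add_one _
    obtain ⟨j, h, hj, hcop, hx⟩ := dirich (2 * α * q * β) hn0
    have hjn : ((j + 1 : ℕ) : ℝ) ≤ n := by exact_mod_cast hj
    have hk0 : (0 : ℝ) < ((j + 1 : ℕ) : ℝ) := by positivity
    have hk1 : (1 : ℝ) ≤ ((j + 1 : ℕ) : ℝ) := by exact_mod_cast Nat.succ_pos j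
    by_cases hkC : L ^ C ≤ ((j + 1 : ℕ) : ℝ)
    · -- minor arcs
      have e1 : (q : ℝ) * ((j + 1 : ℕ) : ℝ) * L ^ C ≤ N := by
        have := (le_div_iff₀ (by positivity)).1 (hjn.trans hn1)
        linarith
      have e2 : |2 * α * q * β - h / ((j + 1 : ℕ) : ℝ)| ≤ 1 / ((j + 1 : ℕ) : ℝ) ^ 2 := by
        refine hx.trans ?_
        rw [sq]
        apply one_div_le_one_div_of_le (by positivity)
        apply mul_le_mul_of_nonneg_right _ hk0.le
        linarith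
      have e3 := SF_min (α := α) (γ := γ) (A := A + 5) (s := j + 1) hL hL300 hN1 hy (by
        rw [← hM]
        refine hsmall _ (by omega)) β (by rw [show A + 5 + 2 = C by omega]; exact hkC)
        (by rw [show A + 5 + 2 = C by omega]; exact e1) hcop e2
      rw [← hX₁] at e3
      have e4 : ‖TT α γ G y N q β a‖ ^ 2 ≤ X₁ * Sb β := by
        refine (TT_cauchy β a).trans ?_
        rw [hSb]
        exact mul_le_mul_of_nonneg_right e3 (sum_nonneg fun _ _ => sq_nonneg _)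
      refine e4.trans ?_
      have : 0 ≤ (if t ∈ mj D q Kk w then X₂ else 0) := by
        split_ifs
        · exact hX₂0
        · exact le_rfl
      linarith
    · -- major arcs
      rw [not_le] at hkC
      obtain ⟨k, hk⟩ : ∃ k : ℕ, k = 2 * α.natAbs * (j + 1) := ⟨_, rfl⟩
      have hk0' : 0 < k := by rw [hk]; positivity
      have : NeZero (k * q) := ⟨Nat.mul_ne_zero (by omega) (NeZero.ne q)⟩
      have hkr : (k : ℝ) = 2 * |(α : ℝ)| * ((j + 1 : ℕ) : ℝ) := by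
        rw [hk, Nat.cast_mul, Nat.cast_mul, hnat]
        push_cast
        ring
      have hkr0 : (0 : ℝ) < k := by exact_mod_cast hk0'
      have hkL : (k : ℝ) ≤ L ^ (C + 1) := by
        rw [hkr]
        calc 2 * |(α : ℝ)| * ((j + 1 : ℕ) : ℝ) ≤ L * L ^ C := by
              gcongr
              linarith
          _ = _ := by ring
      have hkK : k ≤ Kk := by
        rw [hk, hKk]
        apply Nat.mul_le_mul_left
        exact Nat.le_floor hkC.le
      obtain ⟨h', hh'⟩ : ∃ h' : ℤ, h' = α.sign * h := ⟨_, rfl⟩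
      have hηle : |β - h' / ((k * q : ℕ) : ℝ)| ≤ w := by
        have e0 : (α : ℝ) * h' = |(α : ℝ)| * h := by
          rw [hh']
          push_cast
          rw [← mul_assoc, ← Int.cast_mul, mul_comm α, Int.sign_mul_self_eq_abs, Int.cast_abs]
        have e1 : 2 * α * q * β - h / ((j + 1 : ℕ) : ℝ) = 2 * α * q * (β - h' / ((k * q : ℕ) : ℝ)) := by
          have hα' : |(α : ℝ)| ≠ 0 := by linarith
          have e2 : (2 * α * q : ℝ) * (h' / ((k * q : ℕ) : ℝ)) = h / ((j + 1 : ℕ) : ℝ) := by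
            rw [Nat.cast_mul, hkr]
            have : (2 * α * q : ℝ) * (h' / (2 * |(α : ℝ)| * ((j + 1 : ℕ) : ℝ) * q)) =
                (α * h') / (|(α : ℝ)| * ((j + 1 : ℕ) : ℝ)) := by
              field_simp
            rw [this, e0]
            field_simp
          rw [mul_sub, e2]
        rw [e1, abs_mul, abs_mul, abs_mul, abs_two, abs_of_pos hq0] at hx
        have e3 : (N : ℝ) ≤ (n + 1) * (q * L ^ C) := by
          have := (div_lt_iff₀ (by positivity)).1 hn2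
          linarith
        rw [hw, le_div_iff₀ hN0]
        have hn3 : (0 : ℝ) < n + 1 := by positivity
        have e4 : 1 / (((n : ℝ) + 1) * ((j + 1 : ℕ) : ℝ)) ≤ 1 / ((n : ℝ) + 1) := by
          apply one_div_le_one_div_of_le hn3
          nlinarith
        have e5 : q * |β - h' / ((k * q : ℕ) : ℝ)| ≤ 1 / ((n : ℝ) + 1) := by
          refine le_trans ?_ (hx.trans e4)
          have := abs_nonneg (β - h' / ((k * q : ℕ) : ℝ))
          have h6 : 0 ≤ q * |β - h' / ((k * q : ℕ) : ℝ)| := by positivity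
          have h7 : 1 ≤ 2 * |(α : ℝ)| := by linarith
          nlinarith
        have e6 : |β - h' / ((k * q : ℕ) : ℝ)| ≤ 1 / ((n : ℝ) + 1) / q := by
          rw [le_div_iff₀ hq0, mul_comm]
          exact e5
        calc |β - h' / ((k * q : ℕ) : ℝ)| * N ≤ (1 / ((n : ℝ) + 1) / q) * ((n + 1) * (q * L ^ C)) := by
              gcongr
          _ = L ^ C := by field_simp
      -- the lifted modulus
      have hkqM : ((k * q : ℕ) : ℝ) * L ^ (B₂ + C + 2) ≤ M := by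
        rw [Nat.cast_mul]
        calc (k : ℝ) * q * L ^ (B₂ + C + 2) ≤ L ^ (C + 1) * q * L ^ (B₂ + C + 2) := by gcongr
          _ = q * L ^ (C + 1 + (B₂ + C + 2)) := by ring
          _ ≤ M := hbig
      have hkqM' : ((k * q : ℕ) : ℝ) ≤ M := by
        refine le_trans ?_ hkqM
        have : (1 : ℝ) ≤ L ^ (B₂ + C + 2) := one_le_pow₀ hL1
        have h5 : (0 : ℝ) ≤ ((k * q : ℕ) : ℝ) := Nat.cast_nonneg _
        nlinarith
      have hkqN : ((k * q : ℕ) : ℝ) ≤ N := hkqM'.trans hMN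
      have hkq7 : ((k * q : ℕ) : ℝ) ≤ (N : ℝ) ^ (7 / 10 - 1 / 10 : ℝ) := by
        refine hkqM'.trans ?_
        rw [hM, Real.sqrt_eq_rpow]
        exact Real.rpow_le_rpow_of_exponent_le hNr1 (by norm_num)
      have hτ' : ((k * q).divisors.card : ℝ) ≤ L ^ T' := by
        have h1 : (k * q).divisors.card ≤ k * q.divisors.card := by
          have h2 : (k * q).divisors.card ≤ k.divisors.card * q.divisors.card := by
            rw [Nat.divisors_mul]
            exact card_mul_le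
          exact h2.trans (Nat.mul_le_mul_right _ (Nat.card_divisors_le_self k))
        calc ((k * q).divisors.card : ℝ) ≤ ((k * q.divisors.card : ℕ) : ℝ) := by exact_mod_cast h1
          _ = (k : ℝ) * q.divisors.card := by push_cast; ring
          _ ≤ L ^ (C + 1) * L ^ T := by gcongr
          _ = L ^ T' := by rw [hT', ← pow_add]; congr 1; omega
      obtain ⟨B, -, hBc, hB⟩ := hMaj (k * q) hkq7
      rw [← hL] at hBc hB
      have hpw : ∀ a' : ZMod (k * q), ((a'.val : ℕ) : ZMod q) = a →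
          ‖TT α γ G y N (k * q) (β - h' / ((k * q : ℕ) : ℝ)) a'‖ ^ 2 ≤
            (N : ℝ) ^ 3 / (((k * q : ℕ) : ℝ) ^ 2 * L ^ A') := by
        intro a' ha'
        have hηw : |β - h' / ((k * q : ℕ) : ℝ)| ≤ L ^ C / N := by rw [← hw]; exact hηle
        refine pw_reg (A := A') (T := T') hα G (by linarith) (by linarith) hN1 (by rw [← hM]; exact hkqM') hτ' ?_ hy
        refine P_reg (A := A' + T' + 1) (C₃ := C₃) (U₁ := U₁) h3 hL (by linarith) hN1 hkqN B hBc ?_ ?_ ?_ (by omega)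
        · intro S hS
          exact hB _ hηw N le_rfl S hS
        · exact nonu hc hL (by linarith) hN1 hBd hNc (X := A' + T' + 1) (by omega) hkqN N le_rfl
            (β - h' / ((k * q : ℕ) : ℝ))
        · intro χ
          by_cases hχ : (χ.conductor : ℝ) ≤ L ^ K
          · have hs := small_cs hAp hNc (by exact_mod_cast hkqN) χ (by rw [← hL]; exact hχ) (by rw [← hL]; linarith)
              hN1 N le_rfl (β - h' / ((k * q : ℕ) : ℝ)) (C := C) (by rw [← hL]; exact hηw)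
            rw [← hL] at hs
            refine hs.trans ?_
            calc L ^ (K + C + 1) * (N / L ^ U) = N * (L ^ (K + C + 1) / L ^ U) := by ring
              _ ≤ N * (1 / L ^ U₁) := by
                  have : L ^ (K + C + 1) / L ^ U ≤ 1 / L ^ U₁ := by
                    rw [div_le_div_iff₀ (by positivity) (by positivity), one_mul, ← pow_add]
                    exact pow_le_pow_right₀ hL1 (by omega)
                  gcongr
              _ = _ := by ring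
          · rw [not_le] at hχ
            obtain ⟨i, hi⟩ : ∃ i, k = i + 1 := ⟨k - 1, by omega⟩
            have hR := hReg i (by rw [← hi, ← hL]; exact hkL)
            have hη2 : |β - h' / ((k * q : ℕ) : ℝ)| ≤ L ^ (C + 1) / N := by
              refine hηw.trans ?_
              apply div_le_div_of_nonneg_right _ hN0.le
              exact pow_le_pow_right₀ hL1 (by omega)
            subst hi
            have hR2 := hR χ (by rw [← hL]; exact hχ) (β - h' / (((i + 1) * q : ℕ) : ℝ)) (by rw [← hL]; exact hη2) N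
              le_rfl
            rw [← hL] at hR2
            exact hR2
      have e3 : ‖TT α γ G y N q β a‖ ^ 2 ≤ X₂ := by
        have l1 := TT_lift (α := α) (γ := γ) (G := G) (k := k) hy (h := h') (β := β)
          (η := β - h' / ((k * q : ℕ) : ℝ)) (by ring) a
        obtain ⟨S, hS⟩ : ∃ S, S = univ.filter (fun a' : ZMod (k * q) => ((a'.val : ℕ) : ZMod q) = a) := ⟨_, rfl⟩
        rw [← hS] at l1
        have hSc : (S.card : ℝ) ≤ k := by rw [hS]; exact_mod_cast card_above k q a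
        have hY0 : 0 ≤ (N : ℝ) ^ 3 / (((k * q : ℕ) : ℝ) ^ 2 * L ^ A') := by positivity
        calc ‖TT α γ G y N q β a‖ ^ 2 ≤ (∑ a' ∈ S, ‖TT α γ G y N (k * q) (β - h' / ((k * q : ℕ) : ℝ)) a'‖) ^ 2 :=
              pow_le_pow_left₀ (norm_nonneg _) l1 2
          _ ≤ S.card * ∑ a' ∈ S, ‖TT α γ G y N (k * q) (β - h' / ((k * q : ℕ) : ℝ)) a'‖ ^ 2 :=
              sq_sum_le_card_mul_sum_sq
          _ ≤ S.card * ∑ _a' ∈ S, (N : ℝ) ^ 3 / (((k * q : ℕ) : ℝ) ^ 2 * L ^ A') := by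
              gcongr with a' ha'
              rw [hS, mem_filter] at ha'
              exact hpw a' ha'.2
          _ = (S.card : ℝ) ^ 2 * ((N : ℝ) ^ 3 / (((k * q : ℕ) : ℝ) ^ 2 * L ^ A')) := by
              rw [sum_const, nsmul_eq_mul]
              ring
          _ ≤ (k : ℝ) ^ 2 * ((N : ℝ) ^ 3 / (((k * q : ℕ) : ℝ) ^ 2 * L ^ A')) := by gcongr
          _ = X₂ := by
              rw [hX₂, Nat.cast_mul]
              field_simp
      have e4 : t ∈ mj D q Kk w := by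
        rw [mem_mj]
        refine ⟨ht, k, mem_Icc.2 ⟨hk0', hkK⟩, h', ?_⟩
        rw [← hβ]
        exact hηle
      rw [if_pos e4]
      have := mul_nonneg hX₁0 (hSb0 β)
      linarith
  -- the sum over the frequencies
  have hmean := TT_mean (α := α) (γ := γ) (G := G) hy a
  rw [← hD] at hmean
  have s1 : ∑ t ∈ range D, Sb ((t : ℝ) / D) ≤ D * (2 * N * L ^ 4) := by
    rw [hSb]
    simp only
    rw [sum_comm]
    calc ∑ k : ZMod q, ∑ t ∈ range D, ‖cl q N G ((t : ℝ) / D) (a - ((α : ZMod q) * k ^ 2 + (γ : ZMod q) * k))‖ ^ 2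
        ≤ ∑ _k : ZMod q, (D : ℝ) * (((N : ℝ) / q + 1) * (L ^ 2) ^ 2) :=
          sum_le_sum fun k _ => cl_mean hG hDN _
      _ = q * ((D : ℝ) * (((N : ℝ) / q + 1) * (L ^ 2) ^ 2)) := by
          rw [sum_const, card_univ, ZMod.card, nsmul_eq_mul]
      _ = D * ((N + q) * L ^ 4) := by field_simp
      _ ≤ D * ((N + N) * L ^ 4) := by gcongr
      _ = _ := by ring
  have s2 : ∑ t ∈ range D, (if t ∈ mj D q Kk w then X₂ else 0) ≤ (q * L ^ (3 * C + 4)) * X₂ := by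
    rw [← sum_filter, sum_const, nsmul_eq_mul]
    apply mul_le_mul_of_nonneg_right _ hX₂0
    have hc1 : (((range D).filter (fun t => t ∈ mj D q Kk w)).card : ℝ) ≤ ((mj D q Kk w).card : ℝ) := by
      have : (range D).filter (fun t => t ∈ mj D q Kk w) ⊆ mj D q Kk w := fun t ht => (mem_filter.1 ht).2
      exact_mod_cast card_le_card this
    refine hc1.trans ((card_mj (by omega) (NeZero.pos q) hw0 ?_).trans ?_)
    · rw [hw]
      calc L ^ C / N * (Kk * q) ≤ L ^ C / N * (L ^ (C + 1) * q) := by gcongr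
        _ = (q * L ^ (2 * C + 1)) / N := by ring
        _ ≤ M / N := by
            gcongr
            exact hsmall _ (by omega)
        _ ≤ 1 := by rw [div_le_one hN0]; exact hMN
    · exact maj_count (a := kap α γ) hκ1 hLκ hL1 hN0 hq1 hKkr hw (by rw [hDr]; nlinarith)
  have hfin : (D : ℝ) * ∑ n ∈ cls ((α.natAbs + γ.natAbs + 1) * N) q a, ‖cvs α γ G y N n‖ ^ 2 ≤
      D * ((N : ℝ) ^ 2 / (q * L ^ A)) := by
    rw [hmean]
    refine (sum_le_sum hpt).trans ?_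
    rw [sum_add_distrib, ← mul_sum]
    apply fin_arith (by linarith) hq0 hN0 hDNr (A := A) (C := C)
    · rw [← hX₁]
      exact mul_le_mul_of_nonneg_left s1 hX₁0
    · rw [← hA', ← hX₂]
      exact s2
  exact le_of_mul_le_mul_left hfin hD0

end Pool.Agent.T9h57.SB
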