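import Pool.Agent.T9h57.SB.Fin

set_option autoImplicit false

/-! Quadratic polynomials: all residue classes of the moduli which are not divisible by one of few integers, all of
them with a large radical. -/

namespace Pool.Agent.T9h57.SB

open Finset
open Pool.Agent.R460.GS
open Pool.Agent.R460.SC (GoodT)
open Pool.Agent.T9h57.GP (log_ge_one)
open Pool.Agent.T9h57.GL
open Pool.Agent.T9h57.PK (rad)
open Pool.Agent.Y883.GJ
open Pool.Agent.Y614.GJ.Core (ev_log)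

open Classical in
theorem sbf_all {a b : ℤ} (ha : 0 < a) (ρ : ℝ) (hρ : 0 < ρ) (A C T : ℕ) :
    ∃ c : ℕ, ∀ S : ℕ, ∃ X₀ : ℕ, ∀ X : ℕ, X₀ ≤ X → ∃ D : Finset ℕ, (D.card : ℝ) ≤ Real.log X ^ c ∧
      (∀ d ∈ D, Real.log X ^ S < (rad d : ℝ)) ∧
      ∀ q : ℕ, 1 ≤ q → (q : ℝ) ≤ (X : ℝ) ^ (1 / 2 - ρ) → (q.divisors.card : ℝ) ≤ Real.log X ^ T →
      (∀ d ∈ D, ¬ d ∣ q) → ∀ c₀ : ℤ,
        (((Icc 1 (X : ℤ)).filter (fun c : ℤ => c ≡ c₀ [ZMOD q] ∧ ¬ GoodT a b C X c)).card : ℝ) ≤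
          (X : ℝ) / (q * Real.log X ^ A) := by
  obtain ⟨C₀, U₂, h⟩ := fin_trueR (b := b) ha ρ hρ A C T
  obtain ⟨M, hM⟩ : ∃ M, M = a.natAbs + b.natAbs + 1 := ⟨_, rfl⟩
  have hM1 : 1 ≤ M := by omega
  obtain ⟨C₄, Nd, hd⟩ := mL3 Pool.Agent.Y812.GJ.l2 (U₂ + 1) (ρ := 1 / 10) (by norm_num)
  refine ⟨C₄ + C₀ + 1, fun S => ?_⟩
  obtain ⟨N₁, h1⟩ := h (S + C₀ + 1)
  rw [← hM] at h1
  obtain ⟨N₂, h2⟩ := E2_rad S C₀ (U₂ + 1) (ρ := 1 / 10) (by norm_num)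
  obtain ⟨N₃, h3⟩ := nc_LA (U₂ + 1)
  obtain ⟨N₄, h4⟩ := Filter.eventually_atTop.1 (ev_log C₀ (s := 1 / 20) (by norm_num) 2)
  obtain ⟨N₅, h5⟩ := Filter.eventually_atTop.1 (ev_log 1 (s := 1) (by norm_num) (2 ^ (C₄ + C₀) + M))
  refine ⟨N₁ + N₂ + N₃ + N₄ + N₅ + Nd + 3, fun X hX =>
    ⟨E2 (M * X) (U₂ + 1) (S + C₀ + 1) C₀ (1 / 10), ?_, ?_, ?_⟩⟩
  all_goals
    have hXM : X ≤ M * X := Nat.le_mul_of_pos_left X hM1
    have hX0 : (0 : ℝ) < X := by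
      have : 0 < X := by omega
      exact_mod_cast this
    have hM0 : (1 : ℝ) ≤ M := by exact_mod_cast hM1
  · have h6 := E2_card (N := M * X) (U := U₂ + 1) (K := S + C₀ + 1) (C := C₀) (C₄ := C₄) (ρ := 1 / 10)
      (log_ge_one (by omega)) (E1_card _ (fun Ψ hΨ => hd (M * X) (by omega) Ψ (fun ψ hψ => hΨ ψ hψ)))
    refine h6.trans ?_
    obtain ⟨h7, -⟩ := h5 X (by omega)
    have hp : (0 : ℝ) < 2 ^ (C₄ + C₀) := by positivity
    have h8 : Real.log ((M * X : ℕ) : ℝ) ≤ 2 * Real.log X := by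
      push_cast
      rw [Real.log_mul (by positivity) hX0.ne']
      have h9 : Real.log M ≤ M := (Real.log_le_sub_one_of_pos (by linarith)).trans (by linarith)
      linarith
    have h9 : 0 ≤ Real.log ((M * X : ℕ) : ℝ) := Real.log_natCast_nonneg _
    calc Real.log ((M * X : ℕ) : ℝ) ^ (C₄ + C₀) ≤ (2 * Real.log X) ^ (C₄ + C₀) := pow_le_pow_left₀ h9 h8 _
      _ = 2 ^ (C₄ + C₀) * Real.log X ^ (C₄ + C₀) := mul_pow _ _ _
      _ ≤ Real.log X * Real.log X ^ (C₄ + C₀) :=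
          mul_le_mul_of_nonneg_right (by linarith) (pow_nonneg (Real.log_natCast_nonneg _) _)
      _ = Real.log X ^ (C₄ + C₀ + 1) := by ring
  · intro d hdD
    refine lt_of_le_of_lt ?_ (h2 (M * X) (by omega) d hdD)
    apply pow_le_pow_left₀ (Real.log_natCast_nonneg _)
    apply Real.log_le_log hX0
    exact_mod_cast hXM
  · intro q hq1 hq hτ hD c₀
    have hXMr : (X : ℝ) ≤ ((M * X : ℕ) : ℝ) := by exact_mod_cast hXM
    have hN0 : (0 : ℝ) < ((M * X : ℕ) : ℝ) := by linarith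
    have hX1 : (1 : ℝ) ≤ X := by
      have : 1 ≤ X := by omega
      exact_mod_cast this
    obtain ⟨h5', h6⟩ := h4 (M * X) (by omega)
    have hq' : (q : ℝ) ≤ ((M * X : ℕ) : ℝ) ^ (1 / 2 : ℝ) := by
      refine hq.trans ?_
      calc (X : ℝ) ^ (1 / 2 - ρ) ≤ (X : ℝ) ^ (1 / 2 : ℝ) := Real.rpow_le_rpow_of_exponent_le hX1 (by linarith)
        _ ≤ ((M * X : ℕ) : ℝ) ^ (1 / 2 : ℝ) := Real.rpow_le_rpow hX0.le hXMr (by norm_num)
    refine h1 X (by omega) q hq1 hq hτ (reg_of h5' (by omega) hq1 (by norm_num : (0 : ℝ) < 1 / 10) ?_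
      (h3 (M * X) (by omega)) hD) c₀
    calc (q : ℝ) * Real.log ((M * X : ℕ) : ℝ) ^ C₀ ≤
        ((M * X : ℕ) : ℝ) ^ (1 / 2 : ℝ) * ((M * X : ℕ) : ℝ) ^ (1 / 20 : ℝ) := by gcongr
      _ = ((M * X : ℕ) : ℝ) ^ (11 / 20 : ℝ) := by
          rw [← Real.rpow_add hN0]
          congr 1
          norm_num
      _ ≤ ((M * X : ℕ) : ℝ) ^ (2 / 3 - 1 / 10 : ℝ) := by
          apply Real.rpow_le_rpow_of_exponent_le (hX1.trans hXMr)
          norm_num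

end Pool.Agent.T9h57.SB
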