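import Pool.Agent.T9h57.SB.Main
import Pool.Agent.R460.SB.UnW
import Pool.Agent.R460.SC.Fb

set_option autoImplicit false

/-! The formula without weights and with the full Euler product, for almost all constant terms in a residue class of a
regular modulus. Adapted from `R460/SB/UnW` and `R460/SC/Fb`. -/

namespace Pool.Agent.T9h57.SB

open Finset Filter Topology
open Pool.Agent.R460.SB
open Pool.Agent.R460.SC
open Pool.Agent.H373R2.T7 (lamz Vz pz nuB mem_pz Vz_pos Vz_inv_small)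
open Pool.Agent.Y614.GJ.Core (ev_log)
open Pool.Agent.R460.SQ (thp)
open Pool.Agent.W468.ConjF (SJ PJ)
open Pool.Agent.T9h57.GP (RegL)

open Classical in
theorem fin_unwR {a b : ℤ} (ha : 0 < a) (ρ : ℝ) (hρ : 0 < ρ) (A C T : ℕ) :
    ∃ C₀ U₂ : ℕ, ∀ K : ℕ, ∃ B : ℕ, ∀ E : ℕ, ∃ N₀ : ℕ, ∀ N : ℕ, N₀ ≤ N → ∀ z : ℕ,
      Real.log N ^ B ≤ z → (z : ℝ) ≤ Real.log N ^ E →
      ∀ q : ℕ, 1 ≤ q → (q : ℝ) ≤ (N : ℝ) ^ (1 / 2 - ρ) → (q.divisors.card : ℝ) ≤ Real.log N ^ T →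
      RegL ((a.natAbs + b.natAbs + 1) * N) C₀ K U₂ q → ∀ c₀ : ℤ,
        (((Icc 1 (N : ℤ)).filter (fun c : ℤ => c ≡ c₀ [ZMOD q] ∧ ¬ GoodU a b C N z c)).card : ℝ) ≤
          (N : ℝ) / (q * Real.log N ^ A) := by
  obtain ⟨C₀, U₂, hB⟩ := fin_sbR (α := -a) (γ := -b) (by omega) ρ hρ (A + 1) (C + 1) T
  rw [Int.natAbs_neg, Int.natAbs_neg] at hB
  refine ⟨C₀, U₂, fun K => ?_⟩
  obtain ⟨B, hB⟩ := hB K
  refine ⟨B, fun E => ?_⟩
  obtain ⟨N₁, h1⟩ := hB E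
  obtain ⟨N₃, h3⟩ := Filter.eventually_atTop.1 (ev_log (A + 1) (s := min ρ (1 / 2)) (by positivity)
    (100 + 4 * b.natAbs + (b ^ 2 + 2 : ℤ)))
  refine ⟨N₁ + N₃ + 3, fun N hN z hz1 hz2 q hq1 hqN hτ hReg c₀ => ?_⟩
  have hN1 : 1 ≤ N := by omega
  have hN0 : (0 : ℝ) < N := by exact_mod_cast hN1
  have hN1r : (1 : ℝ) ≤ N := by exact_mod_cast hN1
  have hq0 : (0 : ℝ) < q := by exact_mod_cast hq1
  obtain ⟨hLb, hLp⟩ := h3 N (by omega)
  have c1 := h1 N (by omega) z hz1 hz2 q hq1 hqN hτ hReg c₀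
  obtain ⟨L, hLd⟩ : ∃ L, L = Real.log (N : ℝ) := ⟨_, rfl⟩
  rw [← hLd] at hLb hLp c1 ⊢
  have hb0 : (0 : ℝ) ≤ b.natAbs := Nat.cast_nonneg _
  have hb2 : (0 : ℝ) ≤ ((b ^ 2 + 2 : ℤ) : ℝ) := by
    have : (0 : ℤ) ≤ b ^ 2 + 2 := by positivity
    exact_mod_cast this
  have hL100 : 100 ≤ L := by linarith
  have hL0 : 0 < L := by linarith
  have hL1 : 1 ≤ L := by linarith
  obtain ⟨M, hM⟩ : ∃ M, M = Real.sqrt N := ⟨_, rfl⟩
  have hM0 : 0 < M := by rw [hM]; exact Real.sqrt_pos.2 hN0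
  have hMM : M * M = N := by rw [hM]; exact Real.mul_self_sqrt hN0.le
  have hMr : M = (N : ℝ) ^ (1 / 2 : ℝ) := by rw [hM, Real.sqrt_eq_rpow]
  have hqM : (q : ℝ) * L ^ (A + 1) ≤ M := by
    calc (q : ℝ) * L ^ (A + 1) ≤ (N : ℝ) ^ (1 / 2 - ρ) * (N : ℝ) ^ ρ := by
          apply mul_le_mul hqN _ (by positivity) (by positivity)
          exact hLp.trans (Real.rpow_le_rpow_of_exponent_le hN1r (min_le_left _ _))
      _ = M := by
          rw [← Real.rpow_add hN0, hMr]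
          congr 1
          ring
  have hLM : L ^ (A + 1) ≤ M := by
    rw [hMr]
    exact hLp.trans (Real.rpow_le_rpow_of_exponent_le hN1r (min_le_right _ _))
  have hsub : (Icc 1 (N : ℤ)).filter (fun c : ℤ => c ≡ c₀ [ZMOD q] ∧ ¬ GoodU a b C N z c) ⊆
      Icc 1 (b ^ 2 + 2) ∪
      (Icc (-(N : ℤ)) N).filter (fun n : ℤ => n ≡ c₀ [ZMOD q] ∧ ¬ GoodF (-a) (-b) (C + 1) N z n) := by
    intro c hc
    rw [mem_filter, mem_Icc] at hc
    obtain ⟨⟨k1, k2⟩, k3, k4⟩ := hc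
    rw [mem_union]
    rcases le_or_gt c (b ^ 2 + 2) with h5 | h5
    · left
      rw [mem_Icc]
      exact ⟨k1, h5⟩
    · right
      rw [mem_filter, mem_Icc]
      refine ⟨⟨by linarith [Int.natCast_nonneg N], k2⟩, k3, fun hg => k4 ?_⟩
      have hc' : b ^ 2 + 2 ≤ c := h5.le
      have hnat : ∀ t : ℕ, (fv (-a) (-b) c t).toNat = (fv (-a) (-b) c t).natAbs := by
        intro t
        have := fv_two ha hc' t
        omega
      unfold GoodU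
      simp only [hnat]
      refine ⟨hg.1, fun y hy => ?_⟩
      have h6 := unweight ha hc' (y := y) (S := Sz (-a) (-b) c z) (ε := Real.sqrt N / Real.log N ^ (C + 1))
        (fun m hm => hg.2 m ((Nat.pow_le_pow_left hm 2).trans hy))
      refine h6.trans ?_
      rw [← hM, ← hLd]
      calc M / L ^ (C + 1) * (4 * b.natAbs + 4) ≤ M / L ^ (C + 1) * L := by
            apply mul_le_mul_of_nonneg_left _ (by positivity)
            linarith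
        _ = M / L ^ C := by
            rw [pow_succ]
            field_simp
  have hc1 : ((Icc 1 (b ^ 2 + 2)).card : ℝ) ≤ N / (q * L ^ (A + 1)) := by
    have e1 : ((Icc 1 (b ^ 2 + 2)).card : ℝ) = ((b ^ 2 + 2 : ℤ) : ℝ) := by
      rw [Int.card_Icc]
      have : (((b ^ 2 + 2 + 1 - 1).toNat : ℕ) : ℤ) = b ^ 2 + 2 := by
        rw [Int.toNat_of_nonneg (by linarith [sq_nonneg b])]
        ring
      exact_mod_cast this
    rw [e1, le_div_iff₀ (by positivity)]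
    calc ((b ^ 2 + 2 : ℤ) : ℝ) * (q * L ^ (A + 1)) ≤ M * M := by
          apply mul_le_mul _ hqM (by positivity) hM0.le
          have : L ^ 1 ≤ L ^ (A + 1) := pow_le_pow_right₀ hL1 (by omega)
          linarith
      _ = N := hMM
  calc (((Icc 1 (N : ℤ)).filter (fun c : ℤ => c ≡ c₀ [ZMOD q] ∧ ¬ GoodU a b C N z c)).card : ℝ)
      ≤ ((Icc 1 (b ^ 2 + 2) ∪
      (Icc (-(N : ℤ)) N).filter (fun n : ℤ => n ≡ c₀ [ZMOD q] ∧ ¬ GoodF (-a) (-b) (C + 1) N z n)).card : ℝ) := by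
        exact_mod_cast card_le_card hsub
    _ ≤ ((Icc 1 (b ^ 2 + 2)).card : ℝ) +
      (((Icc (-(N : ℤ)) N).filter (fun n : ℤ => n ≡ c₀ [ZMOD q] ∧ ¬ GoodF (-a) (-b) (C + 1) N z n)).card : ℝ) := by
        exact_mod_cast card_union_le _ _
    _ ≤ N / (q * L ^ (A + 1)) + N / (q * L ^ (A + 1)) := add_le_add hc1 c1
    _ = N / (q * L ^ A) * (2 / L) := by
        rw [pow_succ]
        field_simp
        ring
    _ ≤ N / (q * L ^ A) * 1 := by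
        apply mul_le_mul_of_nonneg_left _ (by positivity)
        rw [div_le_one hL0]
        linarith
    _ = _ := mul_one _


open Classical in
theorem fin_trueR {a b : ℤ} (ha : 0 < a) (ρ : ℝ) (hρ : 0 < ρ) (A C T : ℕ) :
    ∃ C₀ U₂ : ℕ, ∀ K : ℕ, ∃ N₀ : ℕ, ∀ N : ℕ, N₀ ≤ N →
      ∀ q : ℕ, 1 ≤ q → (q : ℝ) ≤ (N : ℝ) ^ (1 / 2 - ρ) → (q.divisors.card : ℝ) ≤ Real.log N ^ T →
      RegL ((a.natAbs + b.natAbs + 1) * N) C₀ K U₂ q → ∀ c₀ : ℤ,
        (((Icc 1 (N : ℤ)).filter (fun c : ℤ => c ≡ c₀ [ZMOD q] ∧ ¬ GoodT a b C N c)).card : ℝ) ≤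
          (N : ℝ) / (q * Real.log N ^ A) := by
  obtain ⟨C₀, U₂, hB⟩ := fin_unwR (b := b) ha ρ hρ (A + 1) (C + 1) T
  refine ⟨C₀, U₂, fun K => ?_⟩
  obtain ⟨B, hB⟩ := hB K
  obtain ⟨U, hU⟩ : ∃ U, U = A + C + 4 := ⟨_, rfl⟩
  obtain ⟨B', hB'⟩ : ∃ B', B' = B + 3 * (U + 1) + 4 := ⟨_, rfl⟩
  obtain ⟨N₁, h1⟩ := hB (B' + 1)
  obtain ⟨N₂, h2⟩ := tail_class a ha b ρ hρ U (B' + 1)
  obtain ⟨N₃, h3⟩ := Vz_inv_small (B' + 1)
  obtain ⟨N₄, h4⟩ := Filter.eventually_atTop.1 (ev_log (A + 1) (s := min ρ (1 / 2)) (by positivity)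
    (100 + (a : ℝ) + (b ^ 2 + 2 : ℤ)))
  refine ⟨N₁ + N₂ + N₃ + N₄ + 3, fun N hN q hq1 hqN hτ hReg c₀ => ?_⟩
  obtain ⟨hLb, hLp⟩ := h4 N (by omega)
  have hN1 : 1 ≤ N := by omega
  have hN0 : (0 : ℝ) < N := by exact_mod_cast hN1
  have hN1r : (1 : ℝ) ≤ N := by exact_mod_cast hN1
  have c1 := h1 N (by omega)
  have c2 := h2 N (by omega)
  have c3 := h3 N (by omega)
  obtain ⟨L, hL⟩ : ∃ L, L = Real.log (N : ℝ) := ⟨_, rfl⟩
  have ha0 : (0 : ℝ) < a := by exact_mod_cast ha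
  have hb0 : (0 : ℝ) < ((b ^ 2 + 2 : ℤ) : ℝ) := by
    have : (0 : ℤ) < b ^ 2 + 2 := by positivity
    exact_mod_cast this
  rw [← hL] at hLb hLp c1 c2 c3 hτ ⊢
  have hL100 : 100 ≤ L := by linarith
  have hL0 : 0 < L := by linarith
  have hL1 : 1 ≤ L := by linarith
  have hq0 : (0 : ℝ) < q := by exact_mod_cast hq1
  obtain ⟨z, hz⟩ : ∃ z, z = ⌈L ^ B'⌉₊ := ⟨_, rfl⟩
  have hzlo : L ^ B' ≤ z := by rw [hz]; exact Nat.le_ceil _
  have hL1B : 1 ≤ L ^ B' := one_le_pow₀ hL1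
  have hzhi : (z : ℝ) ≤ L ^ (B' + 1) := by
    have := Nat.ceil_lt_add_one (show 0 ≤ L ^ B' by positivity)
    rw [← hz] at this
    calc (z : ℝ) ≤ L ^ B' + 1 := this.le
      _ ≤ L ^ B' + L ^ B' := by linarith
      _ = 2 * L ^ B' := by ring
      _ ≤ L * L ^ B' := mul_le_mul_of_nonneg_right (by linarith) (by positivity)
      _ = L ^ (B' + 1) := by ring
  have hzL : L ≤ z := (le_self_pow₀ hL1 (by omega)).trans hzlo
  have hz2 : 2 ≤ z := by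
    have : (2 : ℝ) ≤ z := by linarith
    exact_mod_cast this
  have haz : a ≤ z := by
    have : (a : ℝ) ≤ z := by linarith
    exact_mod_cast this
  have d1 := c1 z ((pow_le_pow_right₀ hL1 (by omega)).trans hzlo) hzhi q hq1 hqN hτ hReg c₀
  obtain ⟨Ex, hEx1, hEx2⟩ := c2 z ((pow_le_pow_right₀ hL1 (by omega)).trans hzlo) hzhi q hq1 hqN c₀
  have d3 := c3 z (by omega) hzhi
  -- the small constant terms
  obtain ⟨Sm, hSm⟩ : ∃ Sm : Finset ℤ, Sm = Icc 1 (b ^ 2 + 2) := ⟨_, rfl⟩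
  have hsub : (Icc 1 (N : ℤ)).filter (fun c : ℤ => c ≡ c₀ [ZMOD q] ∧ ¬ GoodT a b C N c) ⊆
      ((Icc 1 (N : ℤ)).filter (fun c : ℤ => c ≡ c₀ [ZMOD q] ∧ ¬ GoodU a b (C + 1) N z c)) ∪ Ex ∪ Sm := by
    intro c hc
    rw [mem_filter, mem_Icc] at hc
    obtain ⟨⟨g1, g2⟩, g3, g4⟩ := hc
    rw [mem_union, mem_union, mem_filter, mem_Icc]
    by_cases hE : c ∈ Ex
    · exact Or.inl (Or.inr hE)
    by_cases hs : c < b ^ 2 + 2
    · right
      rw [hSm, mem_Icc]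
      exact ⟨g1, hs.le⟩
    left
    left
    refine ⟨⟨g1, g2⟩, g3, fun hg => g4 ?_⟩
    obtain ⟨e1, e2⟩ := hEx2 c g1 g2 g3 hE
    push Not at hs
    refine goodT_of ha hs hz2 haz (by rw [← hL]; linarith) (by rw [← hL]; exact d3) (by
      rw [← hL]
      exact (pow_le_pow_right₀ hL1 (by omega)).trans hzlo) e1 ?_ hg
    filter_upwards [e2] with M hM
    refine hM.trans ?_
    rw [← hL]
    apply one_div_le_one_div_of_le (by positivity)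
    exact pow_le_pow_right₀ hL1 (by omega)
  have hcard : (((Icc 1 (N : ℤ)).filter (fun c : ℤ => c ≡ c₀ [ZMOD q] ∧ ¬ GoodT a b C N c)).card : ℝ) ≤
      (((Icc 1 (N : ℤ)).filter (fun c : ℤ => c ≡ c₀ [ZMOD q] ∧ ¬ GoodU a b (C + 1) N z c)).card : ℝ) +
        (Ex.card : ℝ) + (Sm.card : ℝ) := by
    have e1 := card_le_card hsub
    have e2 := card_union_le (((Icc 1 (N : ℤ)).filter (fun c : ℤ => c ≡ c₀ [ZMOD q] ∧ ¬ GoodU a b (C + 1) N z c)) ∪ Ex) Sm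
    have e3 := card_union_le ((Icc 1 (N : ℤ)).filter (fun c : ℤ => c ≡ c₀ [ZMOD q] ∧ ¬ GoodU a b (C + 1) N z c)) Ex
    exact_mod_cast (e1.trans e2).trans (Nat.add_le_add_right e3 _)
  refine hcard.trans ?_
  have hSmc : (Sm.card : ℝ) ≤ L := by
    rw [hSm, Int.card_Icc]
    have e1 : ((b ^ 2 + 2 + 1 - 1 : ℤ).toNat : ℤ) = b ^ 2 + 2 := by
      rw [Int.toNat_of_nonneg (by have := sq_nonneg b; omega)]
      ring
    have e2 : (((b ^ 2 + 2 + 1 - 1 : ℤ).toNat : ℕ) : ℝ) = ((b ^ 2 + 2 : ℤ) : ℝ) := by exact_mod_cast e1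
    rw [e2]
    linarith
  -- comparison of the three terms
  obtain ⟨Y, hY⟩ : ∃ Y : ℝ, Y = (N : ℝ) / (q * L ^ (A + 1)) := ⟨_, rfl⟩
  have hY0 : 0 < Y := by rw [hY]; positivity
  have t1 : (N : ℝ) / (q * L ^ U) ≤ Y := by
    rw [hY]
    apply div_le_div_of_nonneg_left hN0.le (by positivity)
    exact mul_le_mul_of_nonneg_left (pow_le_pow_right₀ hL1 (by omega)) hq0.le
  have t2 : L ≤ Y * L := by
    have hhalf : 1 ≤ Y := by
      rw [hY, le_div_iff₀ (by positivity), one_mul]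
      have hpl : L ^ (A + 1) ≤ (N : ℝ) ^ ρ :=
        hLp.trans (Real.rpow_le_rpow_of_exponent_le hN1r (min_le_left _ _))
      calc (q : ℝ) * L ^ (A + 1) ≤ (N : ℝ) ^ (1 / 2 - ρ) * (N : ℝ) ^ ρ := by gcongr
        _ = (N : ℝ) ^ (1 / 2 : ℝ) := by
            rw [← Real.rpow_add hN0]
            congr 1
            ring
        _ ≤ (N : ℝ) ^ (1 : ℝ) := Real.rpow_le_rpow_of_exponent_le hN1r (by norm_num)
        _ = N := Real.rpow_one _
    nlinarith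
  have t3 : L ≤ Y * 1 := by
    rw [mul_one, hY, le_div_iff₀ (by positivity)]
    have hpl : L ^ (A + 1) ≤ (N : ℝ) ^ ρ :=
      hLp.trans (Real.rpow_le_rpow_of_exponent_le hN1r (min_le_left _ _))
    have hph : L ≤ (N : ℝ) ^ (1 / 2 : ℝ) :=
      ((le_self_pow₀ hL1 (by omega : A + 1 ≠ 0)).trans hLp).trans
        (Real.rpow_le_rpow_of_exponent_le hN1r (min_le_right _ _))
    calc L * ((q : ℝ) * L ^ (A + 1)) ≤ (N : ℝ) ^ (1 / 2 : ℝ) * ((N : ℝ) ^ (1 / 2 - ρ) * (N : ℝ) ^ ρ) := by gcongr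
      _ = N := by
          rw [← Real.rpow_add hN0, ← Real.rpow_add hN0]
          have : (1 / 2 : ℝ) + (1 / 2 - ρ + ρ) = 1 := by ring
          rw [this, Real.rpow_one]
  have hfin : (N : ℝ) / (q * L ^ A) = Y * L := by
    rw [hY, pow_succ]
    field_simp
  rw [hfin]
  rw [← hY] at d1
  have : 3 * Y ≤ Y * L := by nlinarith
  linarith

end Pool.Agent.T9h57.SB
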