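import Pool.Agent.T9h57.SB.Core
import Pool.Agent.R460.SB.Mod

set_option autoImplicit false

/-! The error terms for regular moduli: quadratic polynomials. Adapted from `R460/SB/Mod`. -/

namespace Pool.Agent.T9h57.SB

open Finset
open Pool.Agent.R460.GS
open Pool.Agent.R460.GH
open Pool.Agent.R460.SB
open Pool.Agent.R460.GR (RegAt)
open Pool.Agent.T9h57.GP (RegL reg_FF)
open Pool.Agent.H807R2.Dav (ee norm_ee)
open Pool.Agent.H373R2.T7 (lamz Vz pz lamz_ap lam_ap Vz_pos)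
open Pool.Agent.Y883.T3 (lsh)
open Pool.Agent.Y883.GJ
open Pool.Agent.Y614.GJ.Core (ev_log)
open Pool.Agent.R460.SQ (DZ EZ EZ_sq maj_DZ ap_DZ nc_DZ bd_DZ cls DZ_eq norm_EZ)

lemma reg_DZ {N C K U₁ z r q : ℕ} (hL : 2 ≤ Real.log N) (hR : RegAt N C K (U₁ + 1) (FF z r) q)
    (hs : ∑ n ∈ Icc 1 N, |lamz z n - lsh z r n| ≤ N / Real.log N ^ (U₁ + 1)) :
    RegAt N C K U₁ (DZ z) q := by
  intro j hj χ hχ η hη y hy
  have h1 := hR j hj χ hχ η hη y hy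
  have h2 : ‖cs ((j + 1) * q) y (EZ z r) η χ‖ ≤ N / Real.log N ^ (U₁ + 1) := by
    refine le_trans ?_ hs
    unfold cs
    calc ‖∑ n ∈ Icc 1 y, EZ z r n * χ (n : ZMod ((j + 1) * q)) * ee (n * η)‖ ≤ ∑ n ∈ Icc 1 y, |lamz z n - lsh z r n| := by
          refine (norm_sum_le _ _).trans (sum_le_sum fun n _ => ?_)
          rw [norm_mul, norm_mul, norm_ee, mul_one, norm_EZ]
          have h2 := DirichletCharacter.norm_le_one χ (n : ZMod ((j + 1) * q))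
          calc |lamz z n - lsh z r n| * ‖χ (n : ZMod ((j + 1) * q))‖ ≤ |lamz z n - lsh z r n| * 1 :=
                mul_le_mul_of_nonneg_left h2 (abs_nonneg _)
            _ = _ := mul_one _
      _ ≤ ∑ n ∈ Icc 1 N, |lamz z n - lsh z r n| :=
          sum_le_sum_of_subset_of_nonneg (Icc_subset_Icc le_rfl hy) fun _ _ _ => abs_nonneg _
  have h3 : cs ((j + 1) * q) y (DZ z) η χ = cs ((j + 1) * q) y (FF z r) η χ - cs ((j + 1) * q) y (EZ z r) η χ := by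
    unfold cs
    rw [DZ_eq z r, ← sum_sub_distrib]
    refine sum_congr rfl fun n _ => ?_
    ring
  rw [h3]
  refine (norm_sub_le _ _).trans ?_
  have hL0 : 0 < Real.log N := by linarith
  have h4 : (N : ℝ) / Real.log N ^ (U₁ + 1) ≤ N / Real.log N ^ U₁ / 2 := by
    rw [pow_succ, ← div_div]
    exact div_le_div_of_nonneg_left (by positivity) (by norm_num) hL
  linarith

/-- ERRSQR: the error terms -/
def ErrSqRStm : Prop := ∀ α γ : ℤ, α ≠ 0 → ∀ (A T : ℕ) (ρ : ℝ), 0 < ρ → ∃ C U₂ : ℕ, ∀ K : ℕ, ∃ B : ℕ, ∀ E : ℕ,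
  ∃ N₀ : ℕ, ∀ N : ℕ, N₀ ≤ N → ∀ z : ℕ, Real.log N ^ B ≤ z → (z : ℝ) ≤ Real.log N ^ E → (Vz z)⁻¹ ≤ Real.log N ∧
  ∀ (q : ℕ) [NeZero q], (q : ℝ) ≤ (N : ℝ) ^ (1 / 2 - ρ) → (q.divisors.card : ℝ) ≤ Real.log N ^ T →
  RegL N C K U₂ q → ∀ a : ZMod q, ∀ y : ℕ, y ^ 2 ≤ N →
    ∑ n ∈ cls ((α.natAbs + γ.natAbs + 1) * N) q a, ‖cvs α γ (DZ z) y N n‖ ^ 2 ≤ (N : ℝ) ^ 2 / (q * Real.log N ^ A)

theorem err_SqR (hCore : CoreSqRStm) (hL2 : L2Stm) (hB3 : BilMaj3Stm) (hTM : TiMaj2Stm)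
    (hLsh : LshStm) (hModel : ModelStm) : ErrSqRStm := by
  intro α γ hα A T ρ hρ
  obtain ⟨C, A₂, hC1⟩ := hCore α γ hα A T ρ hρ
  obtain ⟨C₃, Nm1, hm1⟩ := mLA hL2 hB3 (A₂ + 2 + 2) C (ρ := 1 / 15) (by norm_num)
  obtain ⟨Nm2, hm2⟩ := mHU hTM hLsh (A₂ + 2 + 2) C (ρ := 1 / 10) (by norm_num)
  obtain ⟨U₃, hC2⟩ := hC1 C₃
  obtain ⟨Nm3, hm3⟩ := mHU hTM hLsh (2 * (U₃ + 1 + (C + 1) + 4)) (C + 1) (ρ := 1 / 10) (by norm_num)
  refine ⟨C + 1, U₃ + 1 + (C + 1) + 4, fun K => ?_⟩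
  obtain ⟨U, Nc, hC3⟩ := hC2 K
  obtain ⟨U₁, hU₁⟩ : ∃ U₁, U₁ = (U + 1) + (2 * (A₂ + 3) + 14) + (U₃ + 1) := ⟨_, rfl⟩
  obtain ⟨Bm, hBm⟩ := hModel U₁
  refine ⟨max Bm K, fun E => ?_⟩
  obtain ⟨Nmo, hmo⟩ := hBm E
  obtain ⟨Nl, hl⟩ := lamz_ap E (U + 1)
  obtain ⟨Na, ha⟩ := lam_ap K (U + 1)
  obtain ⟨Ne, hNe⟩ := Filter.eventually_atTop.1 (ev_log (C + 1) (s := 1 / 10) (by norm_num) 200)
  refine ⟨Nm1 + Nm2 + Nm3 + Nc + Nmo + Nl + Na + Ne + 1, fun N hN z hz1 hz2 => ?_⟩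
  have hN1 : 1 ≤ N := by omega
  have hN0 : (0 : ℝ) < N := by exact_mod_cast hN1
  have hN1r : (1 : ℝ) ≤ N := by exact_mod_cast hN1
  obtain ⟨hLe, hLC⟩ := hNe N (by omega)
  have hL1 : 1 ≤ Real.log N := by linarith
  have hL2' : 2 ≤ Real.log N := by linarith
  have hzB : Real.log N ^ Bm ≤ z := (pow_le_pow_right₀ hL1 (le_max_left _ _)).trans hz1
  have hzK : Real.log N ^ K ≤ z := (pow_le_pow_right₀ hL1 (le_max_right _ _)).trans hz1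
  have hz1' : 1 ≤ z := by
    have : (1 : ℝ) ≤ z := (one_le_pow₀ hL1).trans hz1
    exact_mod_cast this
  obtain ⟨r, hPar, hsum⟩ := hmo N (by omega) z hzB hz2
  have hdiv : ∀ V : ℕ, V ≤ U₁ → (N : ℝ) / Real.log N ^ U₁ ≤ N / Real.log N ^ V := fun V hV =>
    div_le_div_of_nonneg_left (Nat.cast_nonneg _) (by positivity) (pow_le_pow_right₀ hL1 hV)
  refine ⟨hPar.hV, ?_⟩
  intro q _ hq hτ hReg a y hy
  have hMajF : MajAt N (1 / 10) (A₂ + 2) C C₃ (FF z r) := by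
    have h1 := hm1 N (by omega)
    rw [show (1 / 30 + 1 / 15 : ℝ) = 1 / 10 by norm_num] at h1
    exact maj_FF hL2' h1 (fun q _ hq => hm2 N (by omega) q hq z r hPar.hD hPar.hV)
  have hE : ∑ n ∈ Icc 1 N, ‖EZ z r n‖ ^ 2 ≤ N / Real.log N ^ (A₂ + 3) :=
    EZ_sq (par_mono hL1 (Nat.zero_le _) hPar) hLe hN1 (hsum.trans (hdiv _ (by omega)))
  have hMaj := maj_DZ hL2 (by norm_num) hL2' hN1 hMajF hE
  have hAp : ApAt N K U (DZ z) := by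
    refine ap_DZ hL2' ?_ (ha N (by omega))
    intro q hq hqK c y hy
    refine hl N (by omega) z hz1' hz2 q hq ?_ c y hy
    exact_mod_cast hqK.trans hzK
  have hNc : NcAt N U (DZ z) := nc_DZ (par_mono hL1 (by omega) hPar) hL2' (hsum.trans (hdiv _ (by omega)))
  have hqC : (q : ℝ) * Real.log N ^ (C + 1) ≤ (N : ℝ) ^ (7 / 10 - 1 / 10 : ℝ) := by
    calc (q : ℝ) * Real.log N ^ (C + 1) ≤ (N : ℝ) ^ (1 / 2 - ρ) * (N : ℝ) ^ (1 / 10 : ℝ) := by gcongr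
      _ ≤ (N : ℝ) ^ (1 / 2 : ℝ) * (N : ℝ) ^ (1 / 10 : ℝ) := by
          apply mul_le_mul_of_nonneg_right _ (by positivity)
          exact Real.rpow_le_rpow_of_exponent_le hN1r (by linarith)
      _ = (N : ℝ) ^ (7 / 10 - 1 / 10 : ℝ) := by
          rw [← Real.rpow_add hN0]
          congr 1
          norm_num
  have hRF : RegAt N (C + 1) K (U₃ + 1) (FF z r) q :=
    reg_FF hN1 (by linarith) hqC (NeZero.one_le) (fun q _ hq => hm3 N (by omega) q hq z r hPar.hD hPar.hV) hReg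
  have hRA := reg_DZ hL2' hRF (hsum.trans (hdiv _ (by omega)))
  exact hC3 N (by omega) (DZ z) (fun n hn => bd_DZ hPar.hV hL1 hn) hMaj hAp hNc q hq hτ hRA a y hy

theorem errSqR_all : ErrSqRStm :=
  err_SqR (coreSqR Pool.Agent.Y297.GJ.orth Pool.Agent.Y812.GJ.nonU) Pool.Agent.Y812.GJ.l2
    (bilMaj3 Pool.Agent.Y812.GJ.l2 (countK Pool.Agent.Y812.GJ.l2)) (tiMaj2 Pool.Agent.Y812.GJ.l2)
    Pool.Agent.Y812.GJ.lsh_le Pool.Agent.Y883.GJ.model_all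

end Pool.Agent.T9h57.SB
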